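import Pool.Agent.W345.GK.Inf

/-! Project GK, part INF: the relation at infinity. -/

set_option autoImplicit false

open Polynomial Finset

namespace Pool.Agent.W479.GK

open Pool.Agent.W345.GK

section PolS
variable {k : Type} [Field k]

theorem pol_coeff {N : ℕ} (c : Fin N → k) (i : ℕ) :
    (pol c).coeff i = if h : i < N then c ⟨i, h⟩ else 0 := by
  unfold pol
  rw [finsetSum_coeff]
  simp only [coeff_C_mul_X_pow]
  split_ifs with h
  · rw [Finset.sum_eq_single ⟨i, h⟩]
    · simp
    · intro j _ hj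
      rw [if_neg]
      intro h'
      exact hj (Fin.ext h'.symm)
    · intro h'; exact absurd (Finset.mem_univ _) h'
  · refine Finset.sum_eq_zero fun j _ => ?_
    rw [if_neg]
    intro h'
    exact h (h' ▸ j.2)

theorem pol_degree {N : ℕ} (c : Fin N → k) : (pol c).degree < N := by
  rw [degree_lt_iff_coeff_zero]
  intro m hm
  rw [pol_coeff, dif_neg (by omega)]

theorem pol_of {N : ℕ} (f : k[X]) (h : f.degree < N) : pol (fun i : Fin N => f.coeff i) = f := by
  ext i
  rw [pol_coeff]
  split_ifs with hi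
  · rfl
  · exact ((degree_lt_iff_coeff_zero f N).1 h i (by omega)).symm

theorem pol_inj {N : ℕ} {c c' : Fin N → k} (h : pol c = pol c') : c = c' := by
  funext i
  have := congrArg (fun f => f.coeff (i : ℕ)) h
  simpa [pol_coeff] using this

theorem pol_zero {N : ℕ} : pol (0 : Fin N → k) = 0 := by
  unfold pol
  simp

theorem pol_snoc {m : ℕ} (u : k) (c : Fin m → k) :
    pol (Fin.snocEquiv (fun _ => k) (u, c)) = pol c + C u * X ^ m := by
  unfold pol
  rw [Fin.sum_univ_castSucc]
  simp [Fin.snocEquiv]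

theorem deg_lt (P : k[X]) (hP : P.Monic) {N : ℕ} (a : Fin P.natDegree → k) (b : Fin N → k) :
    (pol a - P * pol b).degree < (N + P.natDegree : ℕ) := by
  rw [degree_lt_iff_coeff_zero]
  intro m hm
  rw [coeff_sub, pol_coeff, dif_neg (by omega), zero_sub, neg_eq_zero]
  by_cases hb : pol b = 0
  · rw [hb, mul_zero, coeff_zero]
  · apply coeff_eq_zero_of_natDegree_lt
    rw [natDegree_mul hP.ne_zero hb]
    have := (natDegree_lt_iff_degree_lt hb).2 (pol_degree b)
    omega

theorem division {F : Type} [Field F] [Fintype k] (P : k[X]) (hP : P.Monic) (N : ℕ)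
    (G : k[X] → F) :
    ∑ a : Fin P.natDegree → k, ∑ b : Fin N → k, G (pol a - P * pol b) =
      ∑ e : Fin (N + P.natDegree) → k, G (pol e) := by
  classical
  rw [← Fintype.sum_prod_type']
  set φ : (Fin P.natDegree → k) × (Fin N → k) → (Fin (N + P.natDegree) → k) :=
    fun x i => (pol x.1 - P * pol x.2).coeff i with hφ
  have hpol : ∀ x, pol (φ x) = pol x.1 - P * pol x.2 := fun x =>
    pol_of _ (deg_lt P hP x.1 x.2)
  have hinj : Function.Injective φ := by
    intro x y hxy
    have h1 : pol x.1 - P * pol x.2 = pol y.1 - P * pol y.2 := by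
      rw [← hpol, ← hpol, hxy]
    have hdeg : ∀ a : Fin P.natDegree → k, (pol a).degree < P.degree := by
      intro a
      rw [degree_eq_natDegree hP.ne_zero]
      exact pol_degree a
    obtain ⟨h2, h3⟩ := div_modByMonic_unique (-pol x.2) (pol x.1) hP
      (f := pol x.1 - P * pol x.2) ⟨by ring, hdeg _⟩
    obtain ⟨h4, h5⟩ := div_modByMonic_unique (-pol y.2) (pol y.1) hP
      (f := pol x.1 - P * pol x.2) ⟨by rw [h1]; ring, hdeg _⟩
    have h6 : pol x.1 = pol y.1 := h3.symm.trans h5
    have h7 : pol x.2 = pol y.2 := neg_injective (h2.symm.trans h4)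
    exact Prod.ext (pol_inj h6) (pol_inj h7)
  have hbij : Function.Bijective φ := by
    rw [Fintype.bijective_iff_injective_and_card]
    refine ⟨hinj, ?_⟩
    rw [Fintype.card_prod, Fintype.card_fun, Fintype.card_fun, Fintype.card_fun, Fintype.card_fin,
      Fintype.card_fin, Fintype.card_fin, pow_add, mul_comm]
  exact Fintype.sum_bijective φ hbij _ _ fun x => by rw [hpol]

theorem sum_pol {F : Type} [Field F] [Fintype k] [Algebra k F] (G : k[X] → F)
    (hG : ∀ (u : k) (c : k[X]), u ≠ 0 → G (C u * c) = G c) : ∀ m : ℕ,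
    ∑ e : Fin m → k, G (pol e) = G 0 - ∑ n ∈ range m, ∑ c : Fin n → k, G (mon c) := by
  classical
  have hq : (Fintype.card k : F) = 0 := by
    rw [← map_natCast (algebraMap k F), FiniteField.cast_card_eq_zero, map_zero]
  intro m
  induction m with
  | zero =>
    rw [Finset.sum_range_zero, sub_zero, Fintype.sum_unique]
    congr 1
  | succ m ih =>
    rw [Finset.sum_range_succ, ← sub_sub, ← ih]
    rw [← Equiv.sum_comp (Fin.snocEquiv (fun _ => k)) (fun e => G (pol e)), Fintype.sum_prod_type]
    have hu : ∀ u : k, ∑ c : Fin m → k, G (pol (Fin.snocEquiv (fun _ => k) (u, c))) =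
        (∑ c : Fin m → k, G (mon c)) + if u = 0 then
          ((∑ c : Fin m → k, G (pol c)) - ∑ c : Fin m → k, G (mon c)) else 0 := by
      intro u
      split_ifs with h
      · rw [add_sub_cancel]
        refine Finset.sum_congr rfl fun c _ => ?_
        rw [pol_snoc, h, C_0, zero_mul, add_zero]
      · rw [add_zero]
        rw [← Equiv.sum_comp (Equiv.piCongrRight fun _ : Fin m => Equiv.mulLeft₀ u h)]
        refine Finset.sum_congr rfl fun c _ => ?_
        rw [pol_snoc]
        have e : pol ((Equiv.piCongrRight fun _ : Fin m => Equiv.mulLeft₀ u h) c) + C u * X ^ m =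
            C u * mon c := by
          unfold pol mon
          rw [mul_add, Finset.mul_sum, add_comm]
          congr 1
          refine Finset.sum_congr rfl fun i _ => ?_
          simp [mul_assoc]
        rw [e, hG u _ h]
    rw [Finset.sum_congr rfl fun u _ => hu u, Finset.sum_add_distrib, Finset.sum_const,
      Finset.card_univ, nsmul_eq_mul, hq, zero_mul, zero_add, Finset.sum_ite_eq']
    simp

end PolS

section Main
variable {k F : Type} [Field k] [Fintype k] [Field F] [Algebra k F]

theorem iA_ne (hI1 : S_I1) (c : k[X]) (hc : c ≠ 0) : (iA c : LS F) ≠ 0 := by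
  intro h
  have h1 : iF (Fintype.card k) (c.map (algebraMap k F)) = (0 : LS F) := h
  have h2 := (hI1 k F).1 (h1.trans (map_zero _).symm)
  exact hc ((Polynomial.map_eq_zero (algebraMap k F)).1 h2)

theorem dl_C (hI1 : S_I1) (u : k) (hu : u ≠ 0) (c : k[X]) :
    dl (Fintype.card k) (iA (C u * c) : LS F) = dl (Fintype.card k) (iA c : LS F) := by
  by_cases hc : c = 0
  · rw [hc, mul_zero]
  have hCu : (C u : k[X]) ≠ 0 := by rwa [Ne, C_eq_zero]
  rw [map_mul, (hI1 k F).2.2.2.2.2 _ _ (iA_ne hI1 _ hCu) (iA_ne hI1 _ hc)]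
  have h : Dx (Fintype.card k) (iA (C u : k[X]) : LS F) = 0 := by
    have e : (iA (C u : k[X]) : LS F) = iF (Fintype.card k) ((C u : k[X]).map (algebraMap k F)) :=
      rfl
    rw [e, (hI1 k F).2.2.2.2.1, Polynomial.map_C, derivative_C, map_zero]
  have h2 : dl (Fintype.card k) (iA (C u : k[X]) : LS F) = 0 := by
    unfold dl
    rw [h, zero_div]
  rw [h2, zero_add]

end Main

theorem inf : S_I1 → S_I6 → S_INF := by
  intro hI1 hI6 k F _ _ _ _ P Lam ρ R hP _ hL hρP hρ0 hρC hρm hsum hrel l
  obtain ⟨B, hB⟩ := hL.close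
  obtain ⟨j, hj⟩ : ∃ j : ℤ, j = ((Fintype.card k : ℤ) - 1) * (l + 1) := ⟨_, rfl⟩
  refine ⟨(j + B + 1).toNat + P.natDegree, fun M hM => ?_⟩
  obtain ⟨N, rfl⟩ : ∃ N, M = N + P.natDegree := ⟨M - P.natDegree, by omega⟩
  have hN : j < N - B := by omega
  obtain ⟨κ, hκ⟩ := hB N
  obtain ⟨G, hGdef⟩ : ∃ G : k[X] → F,
    G = fun c => ρ c * (dl (Fintype.card k) (iA c : LS F)).coeff j := ⟨_, rfl⟩
  have hG0 : G 0 = 0 := by rw [hGdef]; simp only [hρ0, zero_mul]
  have hGC : ∀ (u : k) (c : k[X]), u ≠ 0 → G (C u * c) = G c := by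
    intro u c hu
    rw [hGdef]
    simp only
    rw [hρC u c hu, dl_C hI1 u hu c]
  have hcoef : ∑ a : Fin P.natDegree → k,
      ρ (pol a) * (dl (Fintype.card k) (Lam (pol a))).coeff j = 0 := by
    have h := congrArg (fun f : LS F => f.coeff j) hrel
    simp only [HahnSeries.coeff_sum, HahnSeries.C_mul_eq_smul, HahnSeries.coeff_smul, smul_eq_mul,
      HahnSeries.coeff_zero] at h
    exact h
  have hterm : ∀ a : Fin P.natDegree → k,
      ρ (pol a) * (dl (Fintype.card k) (Lam (pol a))).coeff j =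
        ρ (pol a) * κ.coeff j + ∑ b : Fin N → k, G (pol a - P * pol b) := by
    intro a
    have hG1 : ∀ b : Fin N → k, G (pol a - P * pol b) =
        ρ (pol a) * (dl (Fintype.card k) (iA (pol a - P * pol b) : LS F)).coeff j := by
      intro b
      rw [hGdef]
      simp only
      rw [hρP]
    by_cases ha : a = 0
    · have h0 : ρ (pol a) = 0 := by rw [ha, pol_zero, hρ0]
      rw [Finset.sum_congr rfl fun b _ => hG1 b]
      simp [h0]
    · rw [hκ a ha j hN, HahnSeries.coeff_add, mul_add, HahnSeries.coeff_sum, Finset.mul_sum]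
      congr 1
      exact Finset.sum_congr rfl fun b _ => (hG1 b).symm
  rw [Finset.sum_congr rfl fun a _ => hterm a, Finset.sum_add_distrib, ← Finset.sum_mul, hsum,
    zero_mul, zero_add, division P hP N G, sum_pol G hGC, hG0, zero_sub, neg_eq_zero] at hcoef
  have hmon : ∀ (n : ℕ) (c : Fin n → k), G (mon c) =
      (-1) ^ (l + 1) * (RES c R * algebraMap k F (psm c l)) := by
    intro n c
    rw [hGdef]
    simp only
    rw [hρm, hj, (hI6 k F n c).1 l]
    ring
  rw [Finset.sum_congr rfl fun n _ => Finset.sum_congr rfl fun c _ => hmon n c] at hcoef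
  simp only [← Finset.mul_sum] at hcoef
  rcases mul_eq_zero.1 hcoef with h | h
  · exact absurd h (pow_ne_zero _ (neg_ne_zero.2 one_ne_zero))
  · exact h

end Pool.Agent.W479.GK
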