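import Pool.Agent.W345.GK.Gau

/-! Project GK, part TAU: the relative Frobenius on Laurent series. -/

set_option autoImplicit false

open Polynomial Finset

namespace Pool.Agent.W479.GK

open Pool.Agent.W345.GK

section Tau
variable {F : Type} [Field F]

/-- the relative Frobenius -/
noncomputable def tt (F : Type) [Field F] (q : ℕ) (hq : 0 < q) : LS F →+* LS F :=
  HahnSeries.embDomainRingHom (AddMonoidHom.mulLeft (q : ℤ))
    (fun a b h => by
      have h' : (q : ℤ) * a = q * b := h
      have hq' : (q : ℤ) ≠ 0 := by exact_mod_cast hq.ne'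
      exact mul_left_cancel₀ hq' h')
    (fun a b => by
      have hq' : (0 : ℤ) < q := by exact_mod_cast hq
      change (q : ℤ) * a ≤ q * b ↔ a ≤ b
      constructor
      · intro h; exact le_of_mul_le_mul_left h hq'
      · intro h; exact mul_le_mul_of_nonneg_left h hq'.le)

theorem tt_coeff (q : ℕ) (hq : 0 < q) (f : LS F) (j : ℤ) :
    (tt F q hq f).coeff (q * j) = f.coeff j :=
  HahnSeries.embDomain_coeff (a := j)

theorem tt_coeff' (q : ℕ) (hq : 0 < q) (f : LS F) (i : ℤ) (h : ¬ (q : ℤ) ∣ i) :
    (tt F q hq f).coeff i = 0 :=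
  HahnSeries.embDomain_of_notMem_range (fun ⟨a, ha⟩ => h ⟨a, ha.symm⟩)

theorem tt_single (q : ℕ) (hq : 0 < q) (g : ℤ) (r : F) :
    tt F q hq (HahnSeries.single g r) = HahnSeries.single ((q : ℤ) * g) r :=
  HahnSeries.embDomain_single

theorem tt_C (q : ℕ) (hq : 0 < q) (c : F) : tt F q hq (HahnSeries.C c) = HahnSeries.C c :=
  HahnSeries.embDomainRingHom_C

theorem UU_coeff (q : ℕ) (hq : 0 < q) (f : F[X]) (i : ℕ) :
    (UU q f).coeff i = f.coeff (q * i + (q - 1)) := by
  unfold UU
  rw [finsetSum_coeff]
  simp only [coeff_monomial]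
  rw [Finset.sum_ite_eq']
  split_ifs with h
  · rfl
  · rw [mem_range, not_lt] at h
    symm
    apply coeff_eq_zero_of_natDegree_lt
    have : i ≤ q * i := Nat.le_mul_of_pos_left i hq
    omega

theorem UU_add (q : ℕ) (hq : 0 < q) (f g : F[X]) : UU q (f + g) = UU q f + UU q g := by
  ext i
  rw [UU_coeff q hq, coeff_add, coeff_add, UU_coeff q hq, UU_coeff q hq]

theorem iF_C (q : ℕ) (a : F) : iF q (C a) = (HahnSeries.C a : LS F) := by
  unfold iF
  rw [aeval_C, HahnSeries.algebraMap_apply', PowerSeries.algebraMap_apply,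
    HahnSeries.ofPowerSeries_C]
  rfl

theorem iF_X (q : ℕ) : (iF q (X : F[X]) : LS F) = TT F q := by
  unfold iF
  rw [aeval_X]

theorem iF_mono (q n : ℕ) (a : F) : (iF q (monomial n a) : LS F) =
    HahnSeries.single ((n : ℤ) * (1 - q)) (a * (-1) ^ n) := by
  rw [← C_mul_X_pow_eq_monomial, map_mul, map_pow, iF_C, iF_X]
  unfold TT
  rw [HahnSeries.single_pow, HahnSeries.C_apply, HahnSeries.single_mul_single, zero_add,
    nsmul_eq_mul]

end Tau

section Frob
variable {k F : Type} [Field k] [Fintype k] [Field F] [Algebra k F]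

theorem neg_one_pow_q : ((-1 : F)) ^ (Fintype.card k) = -1 := by
  have h : ((-1 : k)) ^ (Fintype.card k) = -1 := FiniteField.pow_card _
  have := congrArg (algebraMap k F) h
  simpa using this

theorem neg_one_pow_q1 : ((-1 : F)) ^ (Fintype.card k - 1) = 1 := by
  have hq : 0 < Fintype.card k := Fintype.card_pos
  have h := neg_one_pow_q (k := k) (F := F)
  have e : Fintype.card k = (Fintype.card k - 1) + 1 := by omega
  rw [e, pow_succ, mul_neg_one] at h
  exact neg_injective h

theorem pow_fix (x : F) (hx : x ∈ Set.range (algebraMap k F)) : x ^ Fintype.card k = x := by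
  obtain ⟨y, rfl⟩ := hx
  rw [← map_pow, FiniteField.pow_card]

theorem ps_pow (g : PowerSeries F)
    (hg : ∀ n, PowerSeries.coeff n g ∈ Set.range (algebraMap k F)) :
    g ^ Fintype.card k = PowerSeries.expand (Fintype.card k) Fintype.card_ne_zero g := by
  obtain ⟨p, hp⟩ := CharP.exists k
  obtain ⟨n, hpp, hcard⟩ := FiniteField.card k p
  have hF : CharP F p := charP_of_injective_algebraMap (algebraMap k F).injective p
  have hE : ExpChar F p := ExpChar.prime hpp
  have h := MvPowerSeries.map_iterateFrobenius_expand (σ := Unit) (R := F) p hpp.ne_zero g n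
  ext m
  have h2 : PowerSeries.coeff m (g ^ p ^ (n : ℕ)) = iterateFrobenius F p n
      (PowerSeries.coeff m (PowerSeries.expand (p ^ (n : ℕ)) (pow_ne_zero n hpp.ne_zero) g)) := by
    have := congrArg (PowerSeries.coeff m) h.symm
    exact this
  simp only [hcard]
  rw [h2, iterateFrobenius_def, PowerSeries.coeff_expand]
  split_ifs with hd
  · have := pow_fix (k := k) _ (hg (m / p ^ (n : ℕ)))
    rwa [hcard] at this
  · exact zero_pow (pow_ne_zero _ hpp.ne_zero)

theorem tt_ps (q : ℕ) (hq : 0 < q) (g : PowerSeries F) :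
    tt F q hq (g : LS F) = ((PowerSeries.expand q hq.ne' g : PowerSeries F) : LS F) := by
  ext i
  have hq' : (0 : ℤ) < q := by exact_mod_cast hq
  by_cases hd : (q : ℤ) ∣ i
  · obtain ⟨j, rfl⟩ := hd
    rw [tt_coeff, PowerSeries.coeff_coe, PowerSeries.coeff_coe]
    by_cases hj : j < 0
    · rw [if_pos hj, if_pos (mul_neg_of_pos_of_neg hq' hj)]
    · rw [if_neg hj, if_neg (not_lt.2 (mul_nonneg hq'.le (not_lt.1 hj))), Int.natAbs_mul,
        Int.natAbs_natCast, PowerSeries.coeff_expand_mul]
  · rw [tt_coeff' q hq _ i hd, PowerSeries.coeff_coe]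
    split_ifs with h
    · rfl
    · rw [PowerSeries.coeff_expand_of_not_dvd]
      intro h'
      exact hd (Int.natCast_dvd.2 h')

theorem tt_pow (f : LS F) (hf : KR k f) :
    tt F (Fintype.card k) Fintype.card_pos f = f ^ Fintype.card k := by
  have h := LaurentSeries.single_order_mul_powerSeriesPart f
  have hg : ∀ n, PowerSeries.coeff n f.powerSeriesPart ∈ Set.range (algebraMap k F) := by
    intro n
    rw [LaurentSeries.powerSeriesPart_coeff]
    exact hf _
  have h1 : tt F (Fintype.card k) Fintype.card_pos f =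
      HahnSeries.single ((Fintype.card k : ℤ) * f.order) (1 : F) *
        ((f.powerSeriesPart ^ Fintype.card k : PowerSeries F) : LS F) := by
    conv_lhs => rw [← h]
    rw [map_mul, tt_single, tt_ps, ps_pow f.powerSeriesPart hg]
  have h2 : f ^ Fintype.card k = HahnSeries.single ((Fintype.card k : ℤ) * f.order) (1 : F) *
        ((f.powerSeriesPart ^ Fintype.card k : PowerSeries F) : LS F) := by
    conv_lhs => rw [← h]
    rw [mul_pow, HahnSeries.single_pow, one_pow, nsmul_eq_mul, PowerSeries.coe_pow]
  rw [h1, h2]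

theorem mono_case (y : LS F) (n : ℕ) (a : F) (j : ℤ) :
    (tt F (Fintype.card k) Fintype.card_pos y * iF (Fintype.card k) (monomial n a)).coeff
      ((Fintype.card k : ℤ) * j - ((Fintype.card k : ℤ) - 1) ^ 2) =
        (y * iF (Fintype.card k) (UU (Fintype.card k) (monomial n a))).coeff j := by
  obtain ⟨q, hqdef⟩ : ∃ q, q = Fintype.card k := ⟨_, rfl⟩
  have hq : 0 < Fintype.card k := Fintype.card_pos
  have hn1 := neg_one_pow_q (k := k) (F := F)
  have hn2 := neg_one_pow_q1 (k := k) (F := F)
  rw [iF_mono]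
  have hL : (tt F (Fintype.card k) Fintype.card_pos y *
      HahnSeries.single ((n : ℤ) * (1 - (Fintype.card k : ℤ))) (a * (-1) ^ n)).coeff
      ((Fintype.card k : ℤ) * j - ((Fintype.card k : ℤ) - 1) ^ 2) =
      (tt F (Fintype.card k) Fintype.card_pos y).coeff
        ((Fintype.card k : ℤ) * j - ((Fintype.card k : ℤ) - 1) ^ 2 -
          (n : ℤ) * (1 - (Fintype.card k : ℤ))) * (a * (-1) ^ n) := by
    rw [← HahnSeries.coeff_mul_single_add, sub_add_cancel]
  rw [hL]
  by_cases hi : ∃ i, n = Fintype.card k * i + (Fintype.card k - 1)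
  · obtain ⟨i, hi⟩ := hi
    have hU : UU (Fintype.card k) (monomial n a) = monomial i a := by
      ext m
      rw [UU_coeff _ hq, coeff_monomial, coeff_monomial]
      by_cases hm : i = m
      · rw [if_pos hm, if_pos (by rw [hi, hm])]
      · rw [if_neg hm, if_neg]
        intro h
        apply hm
        have h3 : Fintype.card k * i = Fintype.card k * m := by omega
        exact Nat.eq_of_mul_eq_mul_left hq h3
    rw [hU, iF_mono]
    have hR : (y * HahnSeries.single ((i : ℤ) * (1 - (Fintype.card k : ℤ)))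
        (a * (-1) ^ i)).coeff j =
        y.coeff (j - (i : ℤ) * (1 - (Fintype.card k : ℤ))) * (a * (-1) ^ i) := by
      rw [← HahnSeries.coeff_mul_single_add, sub_add_cancel]
    rw [hR]
    have hidx : (Fintype.card k : ℤ) * j - ((Fintype.card k : ℤ) - 1) ^ 2 -
          (n : ℤ) * (1 - (Fintype.card k : ℤ)) =
        (Fintype.card k : ℤ) * (j - (i : ℤ) * (1 - (Fintype.card k : ℤ))) := by
      have hn : (n : ℤ) = (Fintype.card k : ℤ) * i + ((Fintype.card k : ℤ) - 1) := by
        rw [hi]
        push_cast [Nat.cast_sub hq]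
        ring
      rw [hn]
      ring
    rw [hidx, tt_coeff]
    congr 2
    rw [hi, pow_add, pow_mul, hn1, hn2, mul_one]
  · have hU : UU (Fintype.card k) (monomial n a) = 0 := by
      ext m
      rw [UU_coeff _ hq, coeff_monomial, coeff_zero, if_neg]
      intro h
      exact hi ⟨m, h⟩
    rw [hU, map_zero, mul_zero, HahnSeries.coeff_zero, tt_coeff', zero_mul]
    intro hd
    apply hi
    have h1 : (Fintype.card k : ℤ) ∣ (n : ℤ) + 1 := by
      have e : (n : ℤ) + 1 = (Fintype.card k : ℤ) *
          (j - (Fintype.card k : ℤ) + 2 + n) -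
          ((Fintype.card k : ℤ) * j - ((Fintype.card k : ℤ) - 1) ^ 2 -
          (n : ℤ) * (1 - (Fintype.card k : ℤ))) := by ring
      rw [e]
      exact dvd_sub (dvd_mul_right _ _) hd
    have h2 : Fintype.card k ∣ n + 1 := by exact_mod_cast h1
    obtain ⟨m, hm⟩ := h2
    rcases m with _ | m
    · omega
    · refine ⟨m, ?_⟩
      rw [mul_add, mul_one] at hm
      omega

end Frob

theorem tau : S_I1 → S_TAU := by
  intro _ k F _ _ _ _
  have hq : 0 < Fintype.card k := Fintype.card_pos
  refine ⟨tt F (Fintype.card k) hq, ⟨fun f j => tt_coeff _ hq f j,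
    fun f i h => tt_coeff' _ hq f i h⟩, fun c => tt_C _ hq c, fun h => ?_, fun f hf => tt_pow f hf,
    fun y g j => ?_⟩
  · have e : (tt F (Fintype.card k) hq).comp ((iF (Fintype.card k) : F[X] →ₐ[F] LS F) :
        F[X] →+* LS F) = ((iF (Fintype.card k) : F[X] →ₐ[F] LS F) : F[X] →+* LS F).comp
        ((expand F (Fintype.card k) : F[X] →ₐ[F] F[X]) : F[X] →+* F[X]) := by
      refine Polynomial.ringHom_ext (fun a => ?_) ?_
      · change tt F (Fintype.card k) hq (iF (Fintype.card k) (C a)) =
          iF (Fintype.card k) (expand F (Fintype.card k) (C a))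
        rw [expand_C, iF_C, tt_C]
      · change tt F (Fintype.card k) hq (iF (Fintype.card k) X) =
          iF (Fintype.card k) (expand F (Fintype.card k) X)
        rw [expand_X, map_pow, iF_X]
        unfold TT
        rw [tt_single, HahnSeries.single_pow, neg_one_pow_q, nsmul_eq_mul]
    exact DFunLike.congr_fun e h
  · induction g using Polynomial.induction_on' with
    | add f g hf hg =>
      rw [UU_add _ hq, map_add, map_add, mul_add, mul_add, HahnSeries.coeff_add,
        HahnSeries.coeff_add, hf, hg]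
    | monomial n a => exact mono_case y n a j

end Pool.Agent.W479.GK
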